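import Pool.Agent.Lib.MP_a78e1f_lc.R.Iface

/-! # REG: measurable sets are approximated by open sets with a code (helper62) -/

set_option autoImplicit false

universe u v w

namespace Pool.Agent.Lib.MP_a78e1f_lc.H62

open Filter MeasureTheory
open Pool.Agent.Lib.MP_100a6c_lc
open Pool.Agent.Lib.MP_e6fef2_lc
open Pool.Agent.Lib.MP_6d445e_gt

theorem cm_prob : IsProbabilityMeasure cm := by
  unfold cm
  infer_instance

theorem cm_iUnion_le {q : ℝ} (hq : 0 ≤ q) {F : ℕ → Set Cs}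
    (h : ∀ n, cm (F n) ≤ ENNReal.ofReal (q / 2 / 2 ^ n)) : cm (⋃ n, F n) ≤ ENNReal.ofReal q := by
  calc cm (⋃ n, F n) ≤ ∑' n, cm (F n) := measure_iUnion_le F
    _ ≤ ∑' n, ENNReal.ofReal (q / 2 / 2 ^ n) := ENNReal.tsum_le_tsum h
    _ = ENNReal.ofReal (∑' n : ℕ, q / 2 / 2 ^ n) := by
      rw [ENNReal.ofReal_tsum_of_nonneg (fun n => by positivity) (summable_geometric_two' q)]
    _ = ENNReal.ofReal q := by rw [tsum_geometric_two']

/-! ### lists of digits -/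

theorem prefix_res {x : Cs} {τ : List Bool} {n : ℕ} (h : τ <+: res x n) : ∃ k, τ = res x k := by
  obtain ⟨k, hk⟩ : ∃ k, k = τ.length := ⟨_, rfl⟩
  refine ⟨min k n, ?_⟩
  have h1 := List.prefix_iff_eq_take.1 h
  rw [← hk] at h1
  rw [h1]
  unfold res
  rw [← List.map_take, List.take_range]

theorem res_prefix (x : Cs) {m n : ℕ} (h : m ≤ n) : res x m <+: res x n := by
  unfold res
  refine List.IsPrefix.map _ ?_
  rw [List.prefix_iff_eq_take, List.length_range, List.take_range, min_eq_left h]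

theorem res_get (x : Cs) (n k : ℕ) (b : Bool) : (res x k)[n]? = some b ↔ n < k ∧ x n = b := by
  unfold res
  rw [List.getElem?_map]
  by_cases h : n < k
  · rw [List.getElem?_range h]
    simp [h]
  · have : (List.range k)[n]? = none := by
      rw [List.getElem?_eq_none_iff, List.length_range]
      omega
    rw [this]
    simp [h]

section

variable {A : Type u} [CompleteBooleanAlgebra A]

/-- `E` is approximated from outside by open sets with a code. -/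
def Ap (E : Set (Pt A)) : Prop := ∀ q : ℝ, 0 < q → ∃ ε : List Bool → A, Avd ε E ∧
  ∀ᶠ g in ae A, cm (sec ((Kc ε)ᶜ \ E) g) ≤ ENNReal.ofReal q

theorem ap_iUnion {E : ℕ → Set (Pt A)} (h : ∀ n, Ap (E n)) : Ap (⋃ n, E n) := by
  intro q hq
  choose ε h1 h2 using fun n => h n (q / 2 / 2 ^ n) (by positivity)
  have h3 : ∀ᶠ g in ae A, ∀ σ : List Bool, (⨆ n, ε n σ) ∈ g ↔ ∃ n, ε n σ ∈ g :=
    ae_all fun σ => ae_iSup _
  refine ⟨fun σ => ⨆ n, ε n σ, ?_, ?_⟩
  · filter_upwards [h3, ae_all h1] with g h3 h1 x hx hxE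
    obtain ⟨n, hn⟩ := Set.mem_iUnion.1 hxE
    exact h1 n x (fun m hm => hx m ((h3 _).2 ⟨n, hm⟩)) hn
  · filter_upwards [h3, ae_all h2] with g h3 h2
    refine (measure_mono ?_).trans (cm_iUnion_le hq.le h2)
    rintro x ⟨hx1, hx2⟩
    have hx3 : ¬ ∀ n, (⨆ m, ε m (res x n)) ∉ g := hx1
    push Not at hx3
    obtain ⟨n, hn⟩ := hx3
    obtain ⟨m, hm⟩ := (h3 _).1 hn
    refine Set.mem_iUnion.2 ⟨m, fun hK => hK n hm, fun hE => hx2 (Set.mem_iUnion.2 ⟨m, hE⟩)⟩

theorem ms_sec {E : Set (Pt A)} (hE : MeasurableSet E) (g : Ult A) : MeasurableSet (sec E g) :=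
  measurable_prodMk_left hE

theorem ms_le {E : Set (Pt A)} (hE : MeasurableSet E) (q : ENNReal) :
    MeasurableSet {g : Ult A | cm (sec E g) ≤ q} := by
  haveI := cm_prob
  exact (measurable_measure_prodMk_left hE) measurableSet_Iic

theorem ae_val (c : ℕ → A) (ε : ℕ → List Bool → A) : ∀ᶠ g in ae A, ∀ σ : List Bool,
    (⨆ n, c n ⊓ ⨅ i, ⨅ _ : i < n, ⨆ τ, ⨆ _ : τ <+: σ, ε i τ) ∈ g ↔
      ∃ n, c n ∈ g ∧ ∀ i, i < n → ∃ τ, τ <+: σ ∧ ε i τ ∈ g := by
  refine ae_all fun σ => ?_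
  have h1 := ae_iSup fun n => c n ⊓ ⨅ i, ⨅ _ : i < n, ⨆ τ, ⨆ _ : τ <+: σ, ε i τ
  have h2 : ∀ᶠ g in ae A, ∀ n : ℕ, (⨅ i, ⨅ _ : i < n, ⨆ τ, ⨆ _ : τ <+: σ, ε i τ) ∈ g ↔
      ∀ i, (⨅ _ : i < n, ⨆ τ, ⨆ _ : τ <+: σ, ε i τ) ∈ g := ae_all fun n => ae_iInf _
  have h3 : ∀ᶠ g in ae A, ∀ n i : ℕ, (⨅ _ : i < n, ⨆ τ, ⨆ _ : τ <+: σ, ε i τ) ∈ g ↔
      ∀ _ : i < n, (⨆ τ, ⨆ _ : τ <+: σ, ε i τ) ∈ g := ae_all fun n => ae_all fun i => ae_iInf _
  have h4 : ∀ᶠ g in ae A, ∀ i : ℕ, (⨆ τ, ⨆ _ : τ <+: σ, ε i τ) ∈ g ↔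
      ∃ τ, (⨆ _ : τ <+: σ, ε i τ) ∈ g := ae_all fun i => ae_iSup _
  have h5 : ∀ᶠ g in ae A, ∀ (i : ℕ) (τ : List Bool), (⨆ _ : τ <+: σ, ε i τ) ∈ g ↔
      ∃ _ : τ <+: σ, ε i τ ∈ g := ae_all fun i => ae_all fun τ => ae_iSup _
  filter_upwards [h1, h2, h3, h4, h5] with g h1 h2 h3 h4 h5
  rw [h1]
  simp only [g.mem_inf, h2, h3, h4, h5, exists_prop]

theorem ap_compl_iUnion {E : ℕ → Set (Pt A)} (hm : ∀ n, MeasurableSet (E n))
    (h : ∀ n, Ap (E n)ᶜ) : Ap (⋃ n, E n)ᶜ := by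
  haveI := cm_prob
  intro q hq
  choose ε h1 h2 using fun n => h n (q / 2 / 2 / 2 ^ n) (by positivity)
  have hq2 : 0 < ENNReal.ofReal (q / 2) := ENNReal.ofReal_pos.2 (by positivity)
  obtain ⟨G, hG⟩ : ∃ G : ℕ → Set (Pt A), G = fun n => (⋃ i, E i) \ ⋃ i, ⋃ _ : i < n, E i :=
    ⟨_, rfl⟩
  have hGm : ∀ n, MeasurableSet (G n) := by
    intro n
    rw [hG]
    exact (MeasurableSet.iUnion hm).diff (MeasurableSet.iUnion fun i =>
      MeasurableSet.iUnion fun _ => hm i)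
  have hex : ∀ g : Ult A, ∃ n, cm (sec (G n) g) ≤ ENNReal.ofReal (q / 2) := by
    intro g
    have h3 : Antitone fun n => sec (G n) g := by
      intro m n hmn x hx
      have hx' : (g, x) ∈ G n := hx
      rw [hG] at hx'
      show (g, x) ∈ G m
      rw [hG]
      refine ⟨hx'.1, fun hx2 => hx'.2 ?_⟩
      simp only [Set.mem_iUnion, exists_prop] at hx2 ⊢
      obtain ⟨i, hi, hxi⟩ := hx2
      exact ⟨i, by omega, hxi⟩
    have h4 := tendsto_measure_iInter_atTop (μ := cm)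
      (fun n => (ms_sec (hGm n) g).nullMeasurableSet) h3 ⟨0, measure_ne_top _ _⟩
    have h5 : (⋂ n, sec (G n) g) = ∅ := by
      refine Set.eq_empty_iff_forall_notMem.2 fun x hx => ?_
      rw [Set.mem_iInter] at hx
      have h6 : (g, x) ∈ G 0 := hx 0
      rw [hG] at h6
      obtain ⟨i, hi⟩ := Set.mem_iUnion.1 h6.1
      have h7 : (g, x) ∈ G (i + 1) := hx (i + 1)
      rw [hG] at h7
      refine h7.2 ?_
      simp only [Set.mem_iUnion, exists_prop]
      exact ⟨i, by omega, hi⟩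
    rw [h5, measure_empty] at h4
    obtain ⟨n, hn⟩ := ((tendsto_order.1 h4).2 _ hq2).exists
    exact ⟨n, hn.le⟩
  obtain ⟨c, hc⟩ := exists_name (A := A)
    (F := fun n g => cm (sec (G n) g) ≤ ENNReal.ofReal (q / 2) ∧
      ∀ j, j < n → ¬ cm (sec (G j) g) ≤ ENNReal.ofReal (q / 2)) (fun n => by
      refine MeasurableSet.inter (ms_le (hGm n) _) ?_
      have : {g : Ult A | ∀ j, j < n → ¬ cm (sec (G j) g) ≤ ENNReal.ofReal (q / 2)} =
          ⋂ j, ⋂ _ : j < n, {g : Ult A | cm (sec (G j) g) ≤ ENNReal.ofReal (q / 2)}ᶜ := by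
        ext g
        simp
      show MeasurableSet {g : Ult A | ∀ j, j < n → ¬ cm (sec (G j) g) ≤ ENNReal.ofReal (q / 2)}
      rw [this]
      exact MeasurableSet.iInter fun j => MeasurableSet.iInter fun _ => (ms_le (hGm j) _).compl)
  -- the meaning of the code
  have key : ∀ᶠ g in ae A, ∃ N, cm (sec (G N) g) ≤ ENNReal.ofReal (q / 2) ∧ ∀ x : Cs,
      (∃ m, (⨆ n, c n ⊓ ⨅ i, ⨅ _ : i < n, ⨆ τ, ⨆ _ : τ <+: res x m, ε i τ) ∈ g) ↔
        ∀ i, i < N → ∃ m, ε i (res x m) ∈ g := by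
    filter_upwards [hc, ae_val c ε] with g hc hv
    classical
    refine ⟨Nat.find (hex g), Nat.find_spec (hex g), fun x => ⟨?_, fun hx => ?_⟩⟩
    · rintro ⟨m, hm⟩ i hi
      obtain ⟨n, hn, hn2⟩ := (hv _).1 hm
      obtain ⟨hn3, hn4⟩ := (hc n).1 hn
      have hnN : Nat.find (hex g) ≤ n := Nat.find_min' _ hn3
      obtain ⟨τ, hτ, hτg⟩ := hn2 i (by omega)
      obtain ⟨k, rfl⟩ := prefix_res hτ
      exact ⟨k, hτg⟩
    · have hx2 : ∀ i, ∃ m, i < Nat.find (hex g) → ε i (res x m) ∈ g := by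
        intro i
        by_cases hi : i < Nat.find (hex g)
        · obtain ⟨m, hm⟩ := hx i hi
          exact ⟨m, fun _ => hm⟩
        · exact ⟨0, fun h => absurd h hi⟩
      choose m hm using hx2
      refine ⟨(Finset.range (Nat.find (hex g))).sup m, (hv _).2 ⟨Nat.find (hex g), ?_, ?_⟩⟩
      · exact (hc _).2 ⟨Nat.find_spec (hex g), fun j hj => Nat.find_min _ hj⟩
      · intro i hi
        exact ⟨res x (m i), res_prefix x (Finset.le_sup (f := m) (Finset.mem_range.2 hi)), hm i hi⟩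
  refine ⟨fun σ => ⨆ n, c n ⊓ ⨅ i, ⨅ _ : i < n, ⨆ τ, ⨆ _ : τ <+: σ, ε i τ, ?_, ?_⟩
  · filter_upwards [key, ae_all h1] with g hk h1 x hx hxE
    obtain ⟨N, -, hk⟩ := hk
    have h3 := (hk x).2 fun i _ => by
      by_contra hcon
      push Not at hcon
      exact h1 i x hcon fun hxi => hxE (Set.mem_iUnion.2 ⟨i, hxi⟩)
    obtain ⟨m, hm⟩ := h3
    exact hx m hm
  · filter_upwards [key, ae_all h2] with g hk h2
    obtain ⟨N, hN, hk⟩ := hk
    have h3 : sec ((Kc fun σ => ⨆ n, c n ⊓ ⨅ i, ⨅ _ : i < n, ⨆ τ, ⨆ _ : τ <+: σ, ε i τ)ᶜ \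
        (⋃ n, E n)ᶜ) g ⊆ sec (G N) g ∪ ⋃ i, sec ((Kc (ε i))ᶜ \ (E i)ᶜ) g := by
      rintro x ⟨hx1, hx2⟩
      have hx3 : (g, x) ∈ ⋃ n, E n := not_not.1 hx2
      have hx4 : ∃ m, (⨆ n, c n ⊓ ⨅ i, ⨅ _ : i < n, ⨆ τ, ⨆ _ : τ <+: res x m, ε i τ) ∈ g := by
        by_contra hcon
        push Not at hcon
        exact hx1 hcon
      by_cases hx5 : ∃ i, i < N ∧ (g, x) ∈ E i
      · obtain ⟨i, hi, hxi⟩ := hx5
        obtain ⟨m, hm⟩ := (hk x).1 hx4 i hi
        exact Or.inr (Set.mem_iUnion.2 ⟨i, fun hK => hK m hm, fun hE => hE hxi⟩)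
      · refine Or.inl ?_
        show (g, x) ∈ G N
        rw [hG]
        refine ⟨hx3, fun hx6 => hx5 ?_⟩
        simpa only [Set.mem_iUnion, exists_prop] using hx6
    refine (measure_mono h3).trans ((measure_union_le _ _).trans ?_)
    refine (add_le_add hN (cm_iUnion_le (q := q / 2) (by positivity) h2)).trans ?_
    rw [← ENNReal.ofReal_add (by positivity) (by positivity), add_halves]

theorem ap_fst {S : Set (Ult A)} (hS : MeasurableSet S) : Ap {p : Pt A | p.1 ∈ S} := by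
  obtain ⟨a, ha⟩ := hS
  intro q hq
  refine ⟨fun _ => a, ?_, ?_⟩
  · filter_upwards [ha] with g hg x hx hxE
    exact hx 0 (hg.2 hxE)
  · filter_upwards [ha] with g hg
    have : sec ((Kc fun _ => a)ᶜ \ {p : Pt A | p.1 ∈ S}) g = ∅ := by
      refine Set.eq_empty_iff_forall_notMem.2 ?_
      rintro x ⟨hx1, hx2⟩
      exact hx1 fun _ h => hx2 (hg.1 h)
    rw [this, measure_empty]
    exact zero_le

theorem ap_snd (n : ℕ) (b : Bool) : Ap {p : Pt A | p.2 n = b} := by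
  classical
  intro q hq
  refine ⟨fun σ => if σ[n]? = some b then ⊤ else ⊥, ?_, ?_⟩
  · refine Filter.Eventually.of_forall fun g x hx hxE => hx (n + 1) ?_
    have : (res x (n + 1))[n]? = some b := (res_get x n (n + 1) b).2 ⟨by omega, hxE⟩
    show (if (res x (n + 1))[n]? = some b then (⊤ : A) else ⊥) ∈ g
    rw [if_pos this]
    exact g.mem_top
  · refine Filter.Eventually.of_forall fun g => ?_
    have : sec ((Kc fun σ => if σ[n]? = some b then (⊤ : A) else ⊥)ᶜ \ {p : Pt A | p.2 n = b}) g =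
        ∅ := by
      refine Set.eq_empty_iff_forall_notMem.2 ?_
      rintro x ⟨hx1, hx2⟩
      refine hx1 fun k hk => hx2 ?_
      by_contra hcon
      have h1 : ¬ (res x k)[n]? = some b := fun h => hcon ((res_get x n k b).1 h).2
      have hk2 : (if (res x k)[n]? = some b then (⊤ : A) else ⊥) ∈ g := hk
      rw [if_neg h1] at hk2
      exact g.not_bot hk2
    rw [this, measure_empty]
    exact zero_le

/-- The sigma-algebra of the good sets. -/
@[reducible] def mg : MeasurableSpace (Pt A) where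
  MeasurableSet' E := MeasurableSet E ∧ Ap E ∧ Ap Eᶜ
  measurableSet_empty := by
    refine ⟨MeasurableSet.empty, ?_, ?_⟩
    · have := ap_fst (A := A) (S := ∅) MeasurableSet.empty
      simpa using this
    · have := ap_fst (A := A) (S := Set.univ) MeasurableSet.univ
      simpa using this
  measurableSet_compl E h := ⟨h.1.compl, h.2.2, by rw [compl_compl]; exact h.2.1⟩
  measurableSet_iUnion E h := ⟨MeasurableSet.iUnion fun i => (h i).1,
    ap_iUnion fun i => (h i).2.1, ap_compl_iUnion (fun i => (h i).1) fun i => (h i).2.2⟩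

theorem le_mg : (inferInstance : MeasurableSpace (Pt A)) ≤ mg := by
  refine sup_le ?_ ?_
  · rintro _ ⟨S, hS, rfl⟩
    exact ⟨measurable_fst hS, ap_fst hS, ap_fst hS.compl⟩
  · have h1 : ∀ n : ℕ, Measurable[mg (A := A)] fun p : Pt A => p.2 n := by
      intro n
      refine @measurable_to_countable' _ _ _ _ mg _ fun b => ?_
      refine ⟨?_, ap_snd n b, ?_⟩
      · have : Measurable fun p : Pt A => p.2 n := (measurable_pi_apply n).comp measurable_snd
        exact this (measurableSet_singleton b)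
      · have h2 : ((fun p : Pt A => p.2 n) ⁻¹' {b})ᶜ = {p : Pt A | p.2 n = !b} := by
          ext p
          simp only [Set.mem_compl_iff, Set.mem_preimage, Set.mem_singleton_iff,
            Set.mem_ofPred_eq]
          cases p.2 n <;> cases b <;> simp
        rw [h2]
        exact ap_snd n _
    have h3 : Measurable[mg (A := A)] (Prod.snd : Pt A → Cs) := by
      refine @measurable_pi_lambda _ _ _ mg _ _ fun n => h1 n
    exact h3.comap_le

end

/-- REG -/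
theorem reg : RegStatement.{u} := by
  intro A _ E hE q hq
  obtain ⟨-, h1, -⟩ := le_mg (A := A) E hE
  obtain ⟨ε, h2, h3⟩ := h1 q hq
  exact ⟨ε, h2, h3.mono fun g hg => ENNReal.toReal_le_of_le_ofReal hq.le hg⟩

end Pool.Agent.Lib.MP_a78e1f_lc.H62
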